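import Pool.Agent.Lib.MP_524519_ag.DU5.TR.Iface

/-! # Chapter TR, module NEWT: Newton's lemma -/

set_option autoImplicit false

namespace Pool.Agent.DU5.TR.H03

open MvPowerSeries

theorem newt_const {A : Type} [CommRing A] {a : PowerSeries A} {m : ℕ} (hm : 1 ≤ m)
    (h : PowerSeries.X ^ m ∣ a) : PowerSeries.constantCoeff a = 0 := by
  rw [← PowerSeries.coeff_zero_eq_constantCoeff_apply]
  exact PowerSeries.X_pow_dvd_iff.1 h 0 (by omega)

theorem newt_step {k A : Type} [Field k] [CommRing A] [Algebra k A] (ht : TayStatement)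
    (hc : CngStatement) (f : O k 3) (x : Fin 3 → PowerSeries A) (i : Fin 3) (c N : ℕ)
    (w : PowerSeries A) (hx : ∀ j, PowerSeries.constantCoeff (x j) = 0) (hN : 2 * c + 1 ≤ N)
    (hf : ev x (pderiv k i f) = PowerSeries.X ^ c * w) (hw : IsUnit w) (n : ℕ)
    (z : PowerSeries A) (h0 : PowerSeries.constantCoeff z = 0)
    (h1 : PowerSeries.X ^ (N - c) ∣ z - x i)
    (h2 : PowerSeries.X ^ (N + n) ∣ ev (Function.update x i z) f) :
    ∃ z' : PowerSeries A, (PowerSeries.constantCoeff z' = 0 ∧ PowerSeries.X ^ (N - c) ∣ z' - x i ∧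
      PowerSeries.X ^ (N + (n + 1)) ∣ ev (Function.update x i z') f) ∧
      PowerSeries.X ^ (N + n - c) ∣ z' - z := by
  have hy0 : ∀ (z : PowerSeries A), PowerSeries.constantCoeff z = 0 →
      ∀ j, PowerSeries.constantCoeff (Function.update x i z j) = 0 := by
    intro z hz j
    rcases eq_or_ne j i with rfl | hj
    · rw [Function.update_self]; exact hz
    · rw [Function.update_of_ne hj]; exact hx j
  -- the partial derivative
  obtain ⟨t, ht'⟩ : PowerSeries.X ^ (N - c) ∣
      ev (Function.update x i z) (pderiv k i f) - ev x (pderiv k i f) := by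
    refine hc 3 k A (pderiv k i f) x (Function.update x i z) (N - c) hx (hy0 z h0) fun j => ?_
    rcases eq_or_ne j i with rfl | hj
    · rw [Function.update_self]; exact h1
    · rw [Function.update_of_ne hj, sub_self]; exact dvd_zero _
  have e1 : (PowerSeries.X : PowerSeries A) ^ (N - c) =
      PowerSeries.X ^ c * PowerSeries.X ^ (N - 2 * c) := by
    rw [← pow_add]; congr 1; omega
  have e2 : ev (Function.update x i z) (pderiv k i f) =
      PowerSeries.X ^ c * (w + PowerSeries.X ^ (N - 2 * c) * t) := by
    rw [hf, e1] at ht'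
    linear_combination ht'
  have hu : IsUnit (w + PowerSeries.X ^ (N - 2 * c) * t) := by
    rw [PowerSeries.isUnit_iff_constantCoeff] at hw ⊢
    rw [map_add, newt_const (a := PowerSeries.X ^ (N - 2 * c) * t) (m := N - 2 * c) (by omega)
      (Dvd.intro _ rfl), add_zero]
    exact hw
  obtain ⟨v, hv⟩ := hu.exists_right_inv
  obtain ⟨b, hb⟩ := h2
  have hd : PowerSeries.X ^ (N + n - c) ∣ -(PowerSeries.X ^ (N + n - c) * b * v) :=
    ⟨-(b * v), by ring⟩
  have hz' : PowerSeries.constantCoeff (z + -(PowerSeries.X ^ (N + n - c) * b * v)) = 0 := by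
    rw [map_add, h0, newt_const (by omega) hd, add_zero]
  refine ⟨z + -(PowerSeries.X ^ (N + n - c) * b * v), ⟨hz', ?_, ?_⟩, ?_⟩
  · have e3 : z + -(PowerSeries.X ^ (N + n - c) * b * v) - x i =
        (z - x i) + -(PowerSeries.X ^ (N + n - c) * b * v) := by ring
    rw [e3]
    exact dvd_add h1 ((pow_dvd_pow _ (by omega)).trans hd)
  · obtain ⟨q, hq⟩ := ht 3 k A f (Function.update x i z)
      (Function.update x i (z + -(PowerSeries.X ^ (N + n - c) * b * v))) i (hy0 z h0)
      (hy0 _ hz') fun j hj => by rw [Function.update_of_ne hj, Function.update_of_ne hj]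
    rw [hq, Function.update_self, Function.update_self, e2, hb]
    have e4 : (PowerSeries.X : PowerSeries A) ^ (N + n) =
        PowerSeries.X ^ c * PowerSeries.X ^ (N + n - c) := by
      rw [← pow_add]; congr 1; omega
    have e5 : PowerSeries.X ^ (N + n) * b + PowerSeries.X ^ c *
        (w + PowerSeries.X ^ (N - 2 * c) * t) *
          (z + -(PowerSeries.X ^ (N + n - c) * b * v) - z) +
        (z + -(PowerSeries.X ^ (N + n - c) * b * v) - z) ^ 2 * q =
        PowerSeries.X ^ ((N + n - c) + (N + n - c)) * (b ^ 2 * v ^ 2 * q) := by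
      rw [e4, pow_add PowerSeries.X (N + n - c) (N + n - c)]
      linear_combination
        (-(PowerSeries.X ^ c * PowerSeries.X ^ (N + n - c) * b)) * hv
    rw [e5]
    exact Dvd.dvd.mul_right (pow_dvd_pow _ (by omega)) _
  · have e6 : z + -(PowerSeries.X ^ (N + n - c) * b * v) - z =
        -(PowerSeries.X ^ (N + n - c) * b * v) := by ring
    rw [e6]
    exact hd

theorem newt (ht : TayStatement) (hc : CngStatement) : NewtStatement := by
  intro k A _ _ _ f x i c N w hx hN hdf hf hw
  have hst := fun n z (h : PowerSeries.constantCoeff z = 0 ∧ PowerSeries.X ^ (N - c) ∣ z - x i ∧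
      PowerSeries.X ^ (N + n) ∣ ev (Function.update x i z) f) =>
    newt_step ht hc f x i c N w hx hN hf hw n z h.1 h.2.1 h.2.2
  choose! g hg using hst
  set z : ℕ → PowerSeries A := fun n => Nat.rec (x i) (fun n z => g n z) n with hz
  have hz0 : z 0 = x i := rfl
  have hzs : ∀ n, z (n + 1) = g n (z n) := fun n => rfl
  have hP : ∀ n, PowerSeries.constantCoeff (z n) = 0 ∧ PowerSeries.X ^ (N - c) ∣ z n - x i ∧
      PowerSeries.X ^ (N + n) ∣ ev (Function.update x i (z n)) f := by
    intro n
    induction n with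
    | zero =>
      rw [hz0, sub_self, Function.update_eq_self, add_zero]
      exact ⟨hx i, dvd_zero _, hdf⟩
    | succ n ih =>
      rw [hzs]
      exact (hg n (z n) ih).1
  have hd : ∀ n, PowerSeries.X ^ (N + n - c) ∣ z (n + 1) - z n := by
    intro n
    rw [hzs]
    exact (hg n (z n) (hP n)).2
  have hco : ∀ m n, m ≤ n → PowerSeries.coeff m (z n) = PowerSeries.coeff m (z m) := by
    intro m n hmn
    induction n, hmn using Nat.le_induction with
    | base => rfl
    | succ n hmn ih =>
      have h := PowerSeries.X_pow_dvd_iff.1 (hd n) m (by omega)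
      rw [map_sub, sub_eq_zero] at h
      rw [h, ih]
  set yi : PowerSeries A := PowerSeries.mk fun m => PowerSeries.coeff m (z m) with hyi
  have hyz : ∀ n, PowerSeries.X ^ n ∣ yi - z n := by
    intro n
    rw [PowerSeries.X_pow_dvd_iff]
    intro m hm
    rw [map_sub, hyi, PowerSeries.coeff_mk, hco m n hm.le, sub_self]
  have hyi0 : PowerSeries.constantCoeff yi = 0 := by
    rw [← PowerSeries.coeff_zero_eq_constantCoeff_apply, hyi, PowerSeries.coeff_mk,
      PowerSeries.coeff_zero_eq_constantCoeff_apply]
    exact (hP 0).1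
  have hy0 : ∀ (z : PowerSeries A), PowerSeries.constantCoeff z = 0 →
      ∀ j, PowerSeries.constantCoeff (Function.update x i z j) = 0 := by
    intro z' hz' j
    rcases eq_or_ne j i with rfl | hj
    · rw [Function.update_self]; exact hz'
    · rw [Function.update_of_ne hj]; exact hx j
  refine ⟨Function.update x i yi, hy0 yi hyi0, fun j hj => Function.update_of_ne hj _ _, ?_, ?_⟩
  · rw [Function.update_self]
    have e : yi - x i = (yi - z (N - c)) + (z (N - c) - x i) := by ring
    rw [e]
    exact dvd_add (hyz _) (hP _).2.1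
  · ext n
    have h1 : PowerSeries.X ^ (n + 1) ∣ ev (Function.update x i yi) f -
        ev (Function.update x i (z (n + 1))) f := by
      refine hc 3 k A f (Function.update x i (z (n + 1))) (Function.update x i yi) (n + 1)
        (hy0 _ (hP (n + 1)).1) (hy0 yi hyi0) fun j => ?_
      rcases eq_or_ne j i with rfl | hj
      · rw [Function.update_self, Function.update_self]; exact hyz (n + 1)
      · rw [Function.update_of_ne hj, Function.update_of_ne hj, sub_self]; exact dvd_zero _
    have h2 : PowerSeries.X ^ (n + 1) ∣ ev (Function.update x i yi) f := by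
      have h3 := dvd_add h1 ((pow_dvd_pow PowerSeries.X
        (by omega : n + 1 ≤ N + (n + 1))).trans (hP (n + 1)).2.2)
      rwa [sub_add_cancel] at h3
    rw [PowerSeries.X_pow_dvd_iff.1 h2 n (by omega), map_zero]

end Pool.Agent.DU5.TR.H03
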